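import Pool.Agent.helper1.CD.Spec

/-!
# Project CD (MP_2e0e07_nt), row HCE: the number of the characters trivial on the Galois group, lower bound
-/

set_option autoImplicit false

open NumberField IsDedekindDomain Complex Pool.Agent.CH Pool.Agent.GK

namespace Pool.Agent.CD

theorem HCE_cyc {F M : Type} [Field F] [Field M] [Algebra F M] {m : ℕ} {z : M} (hm : 0 < m) (hz : IsPrimitiveRoot z m)
    (hadj : Algebra.adjoin F {z} = ⊤) : IsCyclotomicExtension {m} F M := by
  have : NeZero m := ⟨hm.ne'⟩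
  refine (IsCyclotomicExtension.iff_singleton m F M).2 ⟨⟨z, hz⟩, fun x => ?_⟩
  have h1 : x ∈ Algebra.adjoin F {z} := by
    rw [hadj]
    exact Algebra.mem_top
  refine Algebra.adjoin_mono ?_ h1
  rintro y rfl
  exact hz.pow_eq_one

theorem HCE_card (Q : Type) [CommGroup Q] [Finite Q] : Nat.card (Q →* ℂˣ) = Nat.card Q := by
  have : NeZero (Monoid.exponent Q) := ⟨Monoid.exponent_ne_zero_of_finite⟩
  have : HasEnoughRootsOfUnity ℂ (Monoid.exponent Q) := by infer_instance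
  exact CommGroup.card_monoidHom_of_hasEnoughRootsOfUnity Q ℂ

theorem HCE : HCE_stmt := by
  intro F M _ _ _ _ _ m z hm hz hadj
  have : NeZero m := ⟨hm.ne'⟩
  have hcyc : IsCyclotomicExtension {m} F M := HCE_cyc hm hz hadj
  have : IsGalois F M := IsCyclotomicExtension.isGalois {m} F M
  have : FiniteDimensional F M := Module.Finite.of_restrictScalars_finite ℚ F M
  obtain ⟨κ, hκ⟩ : ∃ κ : (M ≃ₐ[F] M) →* (ZMod m)ˣ, κ = hz.autToPow F := ⟨_, rfl⟩
  have hinj : Function.Injective κ := by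
    rw [hκ]
    exact hz.autToPow_injective F
  have hspec : ∀ g : M ≃ₐ[F] M, g z = z ^ ((κ g : ZMod m)).val := by
    intro g
    rw [hκ]
    exact (hz.autToPow_spec F g).symm
  have hH : Nat.card κ.range = Module.finrank F M := by
    rw [← IsGalois.card_aut_eq_finrank F M]
    exact (Nat.card_congr (MonoidHom.ofInjective hinj).toEquiv).symm
  have hrep : ∀ (g : M ≃ₐ[F] M) (r : ℕ), g z = z ^ r → ((r : ℕ) : ZMod m) = (κ g : ZMod m) := by
    intro g r h
    rw [hspec g] at h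
    obtain ⟨u, hu⟩ : ∃ u : Mˣ, (u : M) = z := ⟨(hz.isUnit hm.ne').unit, rfl⟩
    have h5 : u ^ ((κ g : ZMod m)).val = u ^ r := by
      apply Units.ext
      rw [Units.val_pow_eq_pow_val, Units.val_pow_eq_pow_val, hu]
      exact h
    rw [pow_eq_pow_iff_modEq, ← orderOf_units, hu, ← hz.eq_orderOf] at h5
    have h2 := (ZMod.natCast_eq_natCast_iff _ _ _).2 h5
    rw [ZMod.natCast_zmod_val] at h2
    exact h2.symm
  have h1 : Nat.card (((ZMod m)ˣ ⧸ κ.range) →* ℂˣ) ≤
      Nat.card {ψ : DirichletCharacter ℂ m // ∀ (g : M ≃ₐ[F] M) (r : ℕ), g z = z ^ r → ψ ((r : ℕ) : ZMod m) = 1} := by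
    have : Finite (DirichletCharacter ℂ m) := inferInstanceAs (Finite (MulChar (ZMod m) ℂ))
    have hval : ∀ (χ : ((ZMod m)ˣ ⧸ κ.range) →* ℂˣ) (a : (ZMod m)ˣ),
        (MulChar.ofUnitHom (χ.comp (QuotientGroup.mk' κ.range)) : MulChar (ZMod m) ℂ) (a : ZMod m) =
          ((χ (QuotientGroup.mk a) : ℂˣ) : ℂ) := by
      intro χ a
      rw [MulChar.ofUnitHom_coe]
      rfl
    have hk : ∀ χ : ((ZMod m)ˣ ⧸ κ.range) →* ℂˣ, ∀ (g : M ≃ₐ[F] M) (r : ℕ), g z = z ^ r →
        (MulChar.ofUnitHom (χ.comp (QuotientGroup.mk' κ.range)) : MulChar (ZMod m) ℂ) ((r : ℕ) : ZMod m) = 1 := by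
      intro χ g r h
      rw [hrep g r h, hval]
      have h3 : (QuotientGroup.mk (κ g) : (ZMod m)ˣ ⧸ κ.range) = 1 :=
        (QuotientGroup.eq_one_iff _).2 ⟨g, rfl⟩
      rw [h3, map_one, Units.val_one]
    refine Nat.card_le_card_of_injective
      (fun χ => ⟨MulChar.ofUnitHom (χ.comp (QuotientGroup.mk' κ.range)), hk χ⟩) ?_
    intro χ χ' h
    have h2 := congrArg Subtype.val h
    apply MonoidHom.ext
    intro q
    obtain ⟨a, rfl⟩ := QuotientGroup.mk_surjective q
    apply Units.ext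
    rw [← hval χ a, ← hval χ' a]
    exact congrArg (fun ψ : MulChar (ZMod m) ℂ => ψ (a : ZMod m)) h2
  have h1 := (le_of_eq (HCE_card ((ZMod m)ˣ ⧸ κ.range)).symm).trans h1
  have h4 : Nat.card ((ZMod m)ˣ ⧸ κ.range) * Nat.card κ.range = m.totient := by
    rw [← Subgroup.card_eq_card_quotient_mul_card_subgroup, Nat.card_eq_fintype_card, ZMod.card_units_eq_totient]
  rw [← h4, hH]
  exact Nat.mul_le_mul_right _ h1

end Pool.Agent.CD
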